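import Mathlib
import Pool.Agent.N824.C2.Curv

/-!
# Extension of metrics of positive scalar curvature from coarse metrics

Let `X` be a manifold of dimension `n`. We consider Riemannian metrics on `X` which are induced by
immersions `F : X → ℝᴺ` (for large `N` these are all metrics, by Nash's theorem, which is not used
here). By Gauss's equation the scalar curvature of the metric induced by `F` is
`|tr II|² - |II|²`, where the second fundamental form `II` is the normal component of the second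
derivative of `F` in a parametrization of `X`; so it is a function of the first derivative `L`
and the second derivative `Q` of `F` in the parametrization.

Let `Z` be a closed subset of `X` and `F₀ : X → ℝᴺ` a smooth map, the values of which are given near
`Z`; for instance `X` is closed and `Z` is empty, or `X` is the union of a compact manifold with
boundary and a half-cylinder `∂ × [0, ∞)` over the boundary, `Z` is the closed half-cylinder
`∂ × [1, ∞)` and `F₀` induces a product metric of positive scalar curvature on the half-cylinder.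

The theorem characterizes when there is a smooth immersion `F : X → ℝᴺ` equal to `F₀` outside a
compact set disjoint from `Z`, and with induced metric of positive scalar curvature on `X`: this is
the case if and only if there are *coarse* immersions of this kind. That is, for arbitrarily small
scales `r` (all `r` in a set `S` accumulating at `0`) there are maps `f r : X → ℝᴺ`, equal to `F₀` on
an open set `U` which contains `Z` and has compact complement, where `F₀` has the properties
required from `F`. The maps `f r` need not be continuous, they are unrelated for different `r`, and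
nothing is assumed about `f r` at scales different from `r`. Near a point `x` outside `U` there is
a smooth parametrization `A` of `X`, `κ`-bi-Lipschitz for some function `d(x, y)`, such that for all
`p` near `0` the map `f r ∘ A` is, on the ball of radius `κ² r` about `p`, *in the mean* within
`δ r²` of a quadratic map with first derivative `L` and second derivative `Q` at `p`, where
`(1 + ‖L‖ + ‖Q‖) r ≤ δ τ(r)` with `τ(r) → 0`, and all `L'`, `Q'` with `‖L' - L‖` and `‖Q' - Q‖` at
most `C κ^(2n+4) δ` are the derivatives of immersions with positive scalar curvature of the induced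
metric. Here `L`, `Q`, `δ` depend on `p` and `r` in any way and `C` is any sufficiently large
constant which depends on `n` only. The curvatures may tend to zero or to infinity with `r`, and the
metrics may degenerate.
-/

set_option autoImplicit false

open Set Filter Topology Metric MeasureTheory Function
open scoped Manifold ContDiff InnerProductSpace

noncomputable section

namespace Pool.Agent.Results.MP_b169d2_gt.CoarsePsc

/-- `ℝᵐ` -/
abbrev R (m : ℕ) := EuclideanSpace ℝ (Fin m)

/-- Lebesgue measure on `ℝᵐ` -/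
def vol (m : ℕ) : Measure (R m) := volume

/-- the standard basis of `ℝᵐ` -/
def std (m : ℕ) (i : Fin m) : R m := EuclideanSpace.single i 1

/-! In the following definitions `V = ℝⁿ` is the model space of `X`, `W = ℝᴺ` the target. A
symmetric bilinear map `V × V → W` is an element of `V →L[ℝ] V →L[ℝ] W`. -/

section

variable {V W : Type} [NormedAddCommGroup V] [InnerProductSpace ℝ V] [FiniteDimensional ℝ V]
  [NormedAddCommGroup W] [InnerProductSpace ℝ W] [FiniteDimensional ℝ W]

/-- the inverse of the metric `⟪L u, L v⟫` induced by `L` -/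
def invMetric (L : V →L[ℝ] W) : V →L[ℝ] V :=
  ContinuousLinearMap.inverse ((ContinuousLinearMap.adjoint L).comp L)

/-- the second fundamental form of a map with the derivatives `L` and `Q`: the component of
`Q u v` orthogonal to the image of `L` -/
def II (L : V →L[ℝ] W) (Q : V →L[ℝ] V →L[ℝ] W) (u v : V) : W :=
  Q u v - L (invMetric L (ContinuousLinearMap.adjoint L (Q u v)))

/-- the scalar curvature of the induced metric, by Gauss's equation: the square of the norm of the
trace of the second fundamental form minus the square of its norm, for the induced metric; `e` is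
an orthonormal basis of `V` -/
def scalCurv {ι : Type} [Fintype ι] (e : ι → V) (L : V →L[ℝ] W)
    (Q : V →L[ℝ] V →L[ℝ] W) : ℝ :=
  ‖∑ i, II L Q (invMetric L (e i)) (e i)‖ ^ 2 -
    ∑ i, ∑ j, ⟪II L Q (invMetric L (e i)) (invMetric L (e j)), II L Q (e i) (e j)⟫_ℝ

/-- maps with the derivatives `L` and `Q` are immersions and induce a metric of positive scalar
curvature -/
def PosScal {ι : Type} [Fintype ι] (e : ι → V) (L : V →L[ℝ] W) (Q : V →L[ℝ] V →L[ℝ] W) :
    Prop :=
  Injective L ∧ 0 < scalCurv e L Q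

/-- `Q` is symmetric -/
def Symm (Q : V →L[ℝ] V →L[ℝ] W) : Prop := ∀ u v, Q u v = Q v u

/-- all derivatives at distance at most `b` from `L` and `Q` satisfy `PosScal` -/
def PosScalMargin {ι : Type} [Fintype ι] (e : ι → V) (b : ℝ) (L : V →L[ℝ] W)
    (Q : V →L[ℝ] V →L[ℝ] W) : Prop :=
  ∀ (L' : V →L[ℝ] W) (Q' : V →L[ℝ] V →L[ℝ] W), Symm Q' → ‖L' - L‖ ≤ b → ‖Q' - Q‖ ≤ b →
    PosScal e L' Q'

/-- the quadratic map with the value `c` and the derivatives `L` and `Q` at `p` -/
def quad (c : W) (L : V →L[ℝ] W) (Q : V →L[ℝ] V →L[ℝ] W) (p s : V) : W :=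
  c + L (s - p) + (1 / 2 : ℝ) • Q (s - p) (s - p)

/-- `h` is integrable on the ball of radius `a` about `p` and its distance to a quadratic map with
the derivatives `L` and `Q` at `p` has integral at most `b` over this ball. -/
def QuadInMean [MeasurableSpace V] (μ : Measure V) (h : V → W) (p : V) (a b : ℝ)
    (L : V →L[ℝ] W) (Q : V →L[ℝ] V →L[ℝ] W) : Prop :=
  IntegrableOn h (closedBall p a) μ ∧ ∃ c : W, ∫ q in closedBall p a, ‖h q - quad c L Q p q‖ ∂μ ≤ b

variable {X : Type} [TopologicalSpace X] [ChartedSpace V X]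

/-- smooth maps -/
def Smooth (V : Type) [NormedAddCommGroup V] [InnerProductSpace ℝ V] [ChartedSpace V X]
    (F : X → W) : Prop := ContMDiff 𝓘(ℝ, V) 𝓘(ℝ, W) ∞ F

/-- `A` is a smooth parametrization near `x = A 0` -/
def Param (A : V → X) (x : X) : Prop :=
  A 0 = x ∧ IsLocalDiffeomorphAt 𝓘(ℝ, V) 𝓘(ℝ, V) ∞ A 0

/-- `F` is an immersion at `x` and the scalar curvature of the induced metric at `x` is positive -/
def PscAt {ι : Type} [Fintype ι] (e : ι → V) (F : X → W) (x : X) : Prop :=
  ∃ A : V → X, Param A x ∧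
    PosScal e (fderiv ℝ (fun z => F (A z)) 0) (fderiv ℝ (fderiv ℝ fun z => F (A z)) 0)

/-- `A` is `κ`-bi-Lipschitz for `d` on the ball of radius `ρ`. -/
def BiLip (d : X → X → ℝ) (A : V → X) (κ ρ : ℝ) : Prop :=
  1 ≤ κ ∧ 0 < ρ ∧ ∀ p q : V, ‖p‖ < ρ → ‖q‖ < ρ →
    d (A p) (A q) ≤ κ * ‖p - q‖ ∧ ‖p - q‖ ≤ κ * d (A p) (A q)

/-- the maps `f r` are coarse immersions inducing positive scalar curvature at `x`, each one at its
scale `r ∈ S`; `n` is the dimension of `X` -/
def CoarseAt {ι : Type} [Fintype ι] [MeasurableSpace V] (e : ι → V) (n : ℕ) (μ : Measure V)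
    (C : ℝ) (d : X → X → ℝ) (S : Set ℝ) (f : ℝ → X → W) (x : X) : Prop :=
  ∃ (A : V → X) (κ ρ : ℝ) (τ : ℝ → ℝ), Param A x ∧ BiLip d A κ ρ ∧ Tendsto τ (𝓝[>] 0) (𝓝 0) ∧
    ∀ p, ‖p‖ < ρ → ∀ r ∈ S, 0 < r → r < ρ →
      ∃ (L : V →L[ℝ] W) (Q : V →L[ℝ] V →L[ℝ] W) (δ : ℝ), 0 ≤ δ ∧ Symm Q ∧
        (1 + ‖L‖ + ‖Q‖) * r ≤ δ * τ r ∧
        QuadInMean μ (fun z => f r (A z)) p (κ ^ 2 * r) (δ * r ^ (n + 2)) L Q ∧
        PosScalMargin e (C * κ ^ (2 * n + 4) * δ) L Q

/-- there is a smooth immersion inducing a metric of positive scalar curvature and equal to `F₀`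
outside a compact set disjoint from `Z` -/
def Extends {ι : Type} [Fintype ι] (e : ι → V) (Z : Set X) (F₀ : X → W) : Prop :=
  ∃ (F : X → W) (K : Set X), Smooth V F ∧ IsCompact K ∧ Disjoint K Z ∧
    (∀ x, x ∉ K → F x = F₀ x) ∧ ∀ x, PscAt e F x

/-- there are, for scales `r` accumulating at `0`, coarse maps `f r` of this kind, which are equal
to `F₀` on an open set `U` containing `Z`, with compact complement -/
def ExtendsCoarsely {ι : Type} [Fintype ι] [MeasurableSpace V] (e : ι → V) (n : ℕ)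
    (μ : Measure V) (C : ℝ) (Z : Set X) (F₀ : X → W) : Prop :=
  ∃ (U : Set X) (d : X → X → ℝ) (S : Set ℝ) (f : ℝ → X → W), IsOpen U ∧ Z ⊆ U ∧ IsCompact Uᶜ ∧
    (∀ x ∈ U, PscAt e F₀ x) ∧ (0 : ℝ) ∈ closure (S ∩ Ioi 0) ∧
    (∀ r ∈ S, ∀ x ∈ U, f r x = F₀ x) ∧ ∀ x, x ∉ U → CoarseAt e n μ C d S f x

end

theorem result (n : ℕ) : ∃ C₀ : ℝ, ∀ C : ℝ, C₀ ≤ C → ∀ (N : ℕ) (X : Type) [TopologicalSpace X]
    [T2Space X] [SecondCountableTopology X] [ChartedSpace (R n) X]
    [IsManifold 𝓘(ℝ, R n) ∞ X] (Z : Set X) (_ : IsClosed Z) (F₀ : X → R N)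
    (_ : Smooth (R n) F₀),
    Extends (std n) Z F₀ ↔ ExtendsCoarsely (std n) n (vol n) C Z F₀ := by
  obtain ⟨C₀, hC₀⟩ := Pool.Agent.N824.C2.main2 n
  refine ⟨C₀, fun C hC N X _ _ _ _ _ Z hZ F₀ hF₀ => ?_⟩
  have hmain := hC₀ C hC (R N) (Pool.Agent.N824.C2.PosScal (std n)) (fun L Q _ h => by
    obtain ⟨b, hb, h1⟩ := Pool.Agent.N824.C2.posScal_open (std n) h
    exact ⟨b, hb, fun L' Q' _ h2 h3 => h1 L' Q' h2 h3⟩) X Z hZ F₀ hF₀
  have hsat : ∀ (F : X → R N) (x : X), PscAt (std n) F x ↔
      Pool.Agent.N824.C2.Sat (Pool.Agent.N824.C2.PosScal (std n)) F x := by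
    intro F x
    constructor
    · rintro ⟨A, ⟨h1, h2⟩, h3⟩
      exact ⟨A, h1, h2, h3⟩
    · rintro ⟨A, h1, h2, h3⟩
      exact ⟨A, ⟨h1, h2⟩, h3⟩
  refine Iff.trans ?_ (hmain.trans ?_)
  · constructor
    · rintro ⟨F, K, h1, h2, h3, h4, h5⟩
      exact ⟨F, K, h1, h2, h3, h4, fun x => (hsat F x).1 (h5 x)⟩
    · rintro ⟨F, K, h1, h2, h3, h4, h5⟩
      exact ⟨F, K, h1, h2, h3, h4, fun x => (hsat F x).2 (h5 x)⟩
  · constructor
    · rintro ⟨U, d, S, f, h1, h2, h3, h4, h5, h6, h7⟩
      refine ⟨U, d, S, f, h1, h2, h3, fun x hx => (hsat F₀ x).2 (h4 x hx), h5, h6,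
        fun x hx => ?_⟩
      obtain ⟨A, κ, ρ, τ, k1, k2, k3, k4, k5, k6, k7⟩ := h7 x hx
      refine ⟨A, κ, ρ, τ, ⟨k1, k2⟩, ⟨k3, k4, k6⟩, k5, fun p hp r hr h0 hrρ => ?_⟩
      obtain ⟨L, Q, δ, c, m1, m2, m3, ⟨m4, m5⟩, m6⟩ := k7 p hp r hr h0 hrρ
      exact ⟨L, Q, δ, m1, m2, m3, ⟨m4, c, m5⟩, m6⟩
    · rintro ⟨U, d, S, f, h1, h2, h3, h4, h5, h6, h7⟩
      refine ⟨U, d, S, f, h1, h2, h3, fun x hx => (hsat F₀ x).1 (h4 x hx), h5, h6,
        fun x hx => ?_⟩
      obtain ⟨A, κ, ρ, τ, ⟨k1, k2⟩, ⟨k3, k4, k6⟩, k5, k7⟩ := h7 x hx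
      refine ⟨A, κ, ρ, τ, k1, k2, k3, k4, k5, k6, fun p hp r hr h0 hrρ => ?_⟩
      obtain ⟨L, Q, δ, m1, m2, m3, ⟨m4, c, m5⟩, m6⟩ := k7 p hp r hr h0 hrρ
      exact ⟨L, Q, δ, c, m1, m2, m3, ⟨m4, m5⟩, m6⟩

end Pool.Agent.Results.MP_b169d2_gt.CoarsePsc
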